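import Pool.Agent.H43.TC.Targets4

/-! CNV: walks by the vertex reached after `i` steps. -/

set_option autoImplicit false

namespace Pool.Agent.H67.TE

open Pool.Agent.H43.TC

section

variable {G : Type} [AddCommGroup G] {k : ℕ} (s : Fin k → G) (c : G → Bool) (b : Bool)

theorem walks_of_ne (t : ℕ) {x : G} (h : c x ≠ b) : walks s c b t x = 0 := by
  cases t with
  | zero => simp [walks, h]
  | succ t => simp [walks, h]

theorem step_mul (i j : ℕ) (x : G) : walks s c b (i + 1) x * walks s c b j x =
    ∑ m, (walks s c b i (x + s m) * walks s c b j x + walks s c b i (x - s m) *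
      walks s c b j x) := by
  by_cases h : c x = b
  · simp only [walks, if_pos h]
    rw [Finset.sum_mul]
    refine Finset.sum_congr rfl fun m _ => ?_
    ring
  · rw [walks_of_ne s c b j h]
    simp

theorem swap_step [Fintype G] (i j : ℕ) : ∑ x, walks s c b (i + 1) x * walks s c b j x =
    ∑ x, walks s c b i x * walks s c b (j + 1) x := by
  have h2 : ∀ x, walks s c b i x * walks s c b (j + 1) x =
      ∑ m, (walks s c b j (x + s m) * walks s c b i x + walks s c b j (x - s m) *
        walks s c b i x) := by
    intro x
    rw [mul_comm, step_mul]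
  simp_rw [step_mul s c b i j, h2]
  rw [Finset.sum_comm]
  conv_rhs => rw [Finset.sum_comm]
  refine Finset.sum_congr rfl fun m _ => ?_
  rw [Finset.sum_add_distrib, Finset.sum_add_distrib]
  have e1 : ∑ x, walks s c b i (x + s m) * walks s c b j x =
      ∑ x, walks s c b j (x - s m) * walks s c b i x := by
    rw [← Equiv.sum_comp (Equiv.addRight (s m)) fun x =>
      walks s c b j (x - s m) * walks s c b i x]
    refine Finset.sum_congr rfl fun x _ => ?_
    simp only [Equiv.coe_addRight, add_sub_cancel_right]
    ring
  have e2 : ∑ x, walks s c b i (x - s m) * walks s c b j x =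
      ∑ x, walks s c b j (x + s m) * walks s c b i x := by
    rw [← Equiv.sum_comp (Equiv.addRight (s m)) fun x =>
      walks s c b i (x - s m) * walks s c b j x]
    refine Finset.sum_congr rfl fun x _ => ?_
    simp only [Equiv.coe_addRight, add_sub_cancel_right]
    ring
  rw [e1, e2]
  ring

end

theorem cnv : T_CNV := by
  intro G _ _ k s c b i
  induction i with
  | zero =>
    intro j
    rw [Nat.zero_add]
    refine Finset.sum_congr rfl fun x _ => ?_
    by_cases h : c x = b
    · simp [walks, h]
    · rw [walks_of_ne s c b j h, mul_zero]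
  | succ i ih =>
    intro j
    rw [swap_step, ← ih (j + 1)]
    congr 1
    funext x
    congr 1
    omega

end Pool.Agent.H67.TE
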