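import Pool.Agent.H43.TC.Targets4
import Pool.Agent.H43.TC.FIN

/-! OU4: the outer bound for four steps in the plane. -/

set_option autoImplicit false

namespace Pool.Agent.H67.TE

open Filter Topology Pool.Agent.H43.TC

theorem avoid21 : avoid 2 1 = 4 := by decide +kernel
theorem avoid22 : avoid 2 2 = 12 := by decide +kernel
theorem avoid23 : avoid 2 3 = 48 := by decide +kernel
theorem avoid24 : avoid 2 4 = 172 := by decide +kernel

theorem rng24 : rng 2 4 = 267 / 64 := by
  unfold rng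
  rw [Finset.sum_range_succ, Finset.sum_range_succ, Finset.sum_range_succ, Finset.sum_range_succ,
    Finset.sum_range_succ, Finset.sum_range_zero, avoid21, avoid22, avoid23, avoid24]
  have h0 : avoid 2 0 = 1 := rfl
  rw [h0]
  norm_num

theorem ineq4_dens {p q N : ℕ} (h : Ineq4 p q N) (n : ℕ) (c : Tor 2 (n + 3) → Bool) :
    (N / 256 : ℝ) * dens c false ≤ q * mono c false 4 + p * (1 - mono c true 4) := by
  have h1 := h (n + 3) c
  have h2 : (N : ℝ) * size c false + p * total c true 4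
      ≤ q * total c false 4 + 256 * p * ((n + 3 : ℕ) : ℝ) ^ 2 := by exact_mod_cast h1
  have h3 : (0 : ℝ) < ((n + 3 : ℕ) : ℝ) ^ 2 := by positivity
  unfold dens mono
  have e1 : ((2 : ℝ) * ((2 : ℕ) : ℝ)) ^ 4 = 256 := by norm_num
  rw [e1]
  set S : ℝ := ((n + 3 : ℕ) : ℝ) ^ 2 with hS
  have e2 : (N / 256 : ℝ) * ((size c false : ℝ) / S) = (N * size c false) / (256 * S) := by
    field_simp
  have e3 : (q : ℝ) * ((total c false 4 : ℝ) / (S * 256)) +
      p * (1 - (total c true 4 : ℝ) / (S * 256))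
        = (q * total c false 4 + 256 * p * S - p * total c true 4) / (256 * S) := by
    field_simp
    ring
  rw [e2, e3]
  refine div_le_div_of_nonneg_right ?_ (by positivity)
  linarith

theorem ineq4_region {p q N : ℕ} (h : Ineq4 p q N) {x y : ℝ}
    (hxy : (x, y) ∈ region 2 4) : (N / 256 : ℝ) ≤ q * y + p * (2 - x) :=
  inq' 2 4 q p (N / 256) (by norm_num) (Nat.cast_nonneg _) (Nat.cast_nonneg _)
    (fun n c => ineq4_dens h n c) x y hxy

theorem ou4 (hCE4 : T_CE4) (hCR1 : T_CR1) (hBOX : T_BOX) : T_OU4 := by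
  intro x y hxy
  obtain ⟨c1, c2, c3, c4, c5, c6, c7, c8, c9, c10, c11⟩ := hCE4
  obtain ⟨hx0, hx1, -, -⟩ := hBOX 2 4 x y (by norm_num) hxy
  refine ⟨hx0, hx1, ?_⟩
  have i1 := ineq4_region c1 hxy
  have i2 := ineq4_region c2 hxy
  have i3 := ineq4_region c3 hxy
  have i4 := ineq4_region c4 hxy
  have i5 := ineq4_region c5 hxy
  have i6 := ineq4_region c6 hxy
  have i7 := ineq4_region c7 hxy
  have i8 := ineq4_region c8 hxy
  have i9 := ineq4_region c9 hxy
  have i10 := ineq4_region c10 hxy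
  have i11 := ineq4_region c11 hxy
  have i12 := hCR1 2 4 x y (by norm_num) (by norm_num) hxy
  rw [rng24] at i12
  push_cast at i1 i2 i3 i4 i5 i6 i7 i8 i9 i10 i11
  unfold Low4
  refine ⟨?_, ?_, ?_, ?_, ?_, ?_, ?_, ?_, ?_, ?_, ?_, ?_⟩ <;> linarith

end Pool.Agent.H67.TE
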