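import Pool.Agent.H43.TC.Targets4

/-! WN4: from a certificate to the inequality for all colourings, four steps. -/

set_option autoImplicit false

namespace Pool.Agent.H67.TE

open Pool.Agent.H43.TC

/-! ### digits -/

theorem dig2 {p q : ℕ} (hp : p < 2) : (p + 2 * q) % 2 = p ∧ (p + 2 * q) / 2 = q := by omega

theorem dig4 {p q r s : ℕ} (hp : p < 2) (hq : q < 2) (hr : r < 2) (_hs : s < 2) :
    (p + 2 * q + 4 * r + 8 * s) % 8 = p + 2 * q + 4 * r ∧
    (p + 2 * q + 4 * r + 8 * s) / 2 = q + 2 * r + 4 * s ∧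
    (p + 2 * q + 4 * r + 8 * s) / 2 % 4 = q + 2 * r := by omega

theorem dig6 {p q r s t k : ℕ} (hp : p < 2) (hq : q < 2) (hr : r < 2) (hs : s < 2) (ht : t < 2)
    (_hk : k < 2) :
    (p + 2 * q + 4 * r + 8 * s + 16 * t + 32 * k) % 32 = p + 2 * q + 4 * r + 8 * s + 16 * t ∧
    (p + 2 * q + 4 * r + 8 * s + 16 * t + 32 * k) / 2 = q + 2 * r + 4 * s + 8 * t + 16 * k ∧
    (p + 2 * q + 4 * r + 8 * s + 16 * t + 32 * k) / 2 % 16 = q + 2 * r + 4 * s + 8 * t := by
  omega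

/-- index of the diamond of a function on cells -/
def DF (F : ℕ → ℕ → ℕ) : ℕ := dx (F 0 2) (F 1 1) (F 1 2) (F 1 3) (F 2 0) (F 2 1) (F 2 2) (F 2 3)
  (F 2 4) (F 3 1) (F 3 2) (F 3 3) (F 4 2)

/-- index of the octagon of a function on cells -/
def OF (F : ℕ → ℕ → ℕ) : ℕ := ox (F 0 1) (F 0 2) (F 1 0) (F 1 1) (F 1 2) (F 1 3) (F 2 0) (F 2 1)
  (F 2 2) (F 2 3) (F 3 1) (F 3 2)

/-- walks of length two in terms of cells -/
def NF (F : ℕ → ℕ → ℕ) : ℕ := nb (F 0 2) (F 1 1) (F 1 2) (F 1 3) (F 2 0) (F 2 1) (F 2 2) (F 2 3)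
  (F 2 4) (F 3 1) (F 3 2) (F 3 3) (F 4 2)

/-- shifted cells -/
def shf (F : ℕ → ℕ → ℕ) (a b : ℕ) : ℕ → ℕ → ℕ := fun i j => F (i + a) (j + b)

/-- transposed cells -/
def trp (F : ℕ → ℕ → ℕ) : ℕ → ℕ → ℕ := fun i j => F j i

theorem window_ineq {w g₁ g₂ v m₁ m₂ κ oG oM o D p q : ℕ}
    (h : Cert4 w g₁ g₂ v m₁ m₂ κ oG oM o D p q) (F : ℕ → ℕ → ℕ) (hF : ∀ i j, F i j < 2) :
    o ≤ get w g₁ (DF F) + get w g₂ (DF (shf F 0 1)) + get v m₁ (OF (shf F 1 1)) +
      get v m₂ (OF (shf F 0 1)) := by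
  obtain ⟨-, -, -, s0, s1, s2, s3⟩ := h
  obtain ⟨a, ha⟩ : ∃ a, a = F 0 2 + 2 * F 0 3 := ⟨_, rfl⟩
  obtain ⟨b, hb⟩ : ∃ b, b = F 1 1 + 2 * F 1 2 + 4 * F 1 3 + 8 * F 1 4 := ⟨_, rfl⟩
  obtain ⟨c, hc⟩ : ∃ c, c = F 2 0 + 2 * F 2 1 + 4 * F 2 2 + 8 * F 2 3 + 16 * F 2 4 +
    32 * F 2 5 := ⟨_, rfl⟩
  obtain ⟨d, hd⟩ : ∃ d, d = F 3 1 + 2 * F 3 2 + 4 * F 3 3 + 8 * F 3 4 := ⟨_, rfl⟩
  obtain ⟨e, he⟩ : ∃ e, e = F 4 2 + 2 * F 4 3 := ⟨_, rfl⟩
  have a4 : a < 4 := by have := hF 0 2; have := hF 0 3; omega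
  have b16 : b < 16 := by
    have := hF 1 1; have := hF 1 2; have := hF 1 3; have := hF 1 4; omega
  have c64 : c < 64 := by
    have := hF 2 0; have := hF 2 1; have := hF 2 2; have := hF 2 3; have := hF 2 4
    have := hF 2 5; omega
  have d16 : d < 16 := by
    have := hF 3 1; have := hF 3 2; have := hF 3 3; have := hF 3 4; omega
  have e4 : e < 4 := by have := hF 4 2; have := hF 4 3; omega
  have key : o ≤ get w g₁ (li a b c d e) + get w g₂ (ri a b c d e) + get v m₁ (ui b c d e) +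
      get v m₂ (vi a b c d) := by
    have : e = 0 ∨ e = 1 ∨ e = 2 ∨ e = 3 := by omega
    rcases this with h | h | h | h
    · rw [h]; exact slab_spec s0 a4 b16 c64 d16
    · rw [h]; exact slab_spec s1 a4 b16 c64 d16
    · rw [h]; exact slab_spec s2 a4 b16 c64 d16
    · rw [h]; exact slab_spec s3 a4 b16 c64 d16
  obtain ⟨a1, a2⟩ := dig2 (q := F 0 3) (hF 0 2)
  obtain ⟨e1, e2⟩ := dig2 (q := F 4 3) (hF 4 2)
  obtain ⟨b1, b2, b3⟩ := dig4 (hF 1 1) (hF 1 2) (hF 1 3) (hF 1 4)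
  obtain ⟨d1, d2, d3⟩ := dig4 (hF 3 1) (hF 3 2) (hF 3 3) (hF 3 4)
  obtain ⟨c1, c2, c3⟩ := dig6 (hF 2 0) (hF 2 1) (hF 2 2) (hF 2 3) (hF 2 4) (hF 2 5)
  rw [← ha] at a1 a2
  rw [← he] at e1 e2
  rw [← hb] at b1 b2 b3
  rw [← hd] at d1 d2 d3
  rw [← hc] at c1 c2 c3
  have i1 : li a b c d e = DF F := by
    unfold li DF dx
    rw [a1, b1, c1, d1, e1]
  have i2 : ri a b c d e = DF (shf F 0 1) := by
    unfold ri DF dx shf
    rw [a2, b2, c2, d2, e2]
  have i3 : ui b c d e = OF (shf F 1 1) := by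
    unfold ui OF ox shf
    rw [b3, c3, hd, he]
  have i4 : vi a b c d = OF (shf F 0 1) := by
    unfold vi OF ox shf
    rw [c3, d3, ha, hb]
  rw [i1, i2, i3, i4] at key
  exact key

theorem diamond_eq {w g₁ g₂ v m₁ m₂ κ oG oM o D p q : ℕ}
    (h : Cert4 w g₁ g₂ v m₁ m₂ κ oG oM o D p q) (F : ℕ → ℕ → ℕ) (hF : ∀ i j, F i j < 2) :
    get w g₁ (DF F) + get w g₂ (DF F) + get w g₁ (DF (trp F)) + get w g₂ (DF (trp F)) +
      κ * F 2 2 = 4 * oG + D * (q * NF F ^ 2 + p * (256 - NF (fun i j => 1 - F i j) ^ 2)) :=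
  cmD_spec h.1 (hF 0 2) (hF 1 1) (hF 1 2) (hF 1 3) (hF 2 0) (hF 2 1) (hF 2 2) (hF 2 3)
    (hF 2 4) (hF 3 1) (hF 3 2) (hF 3 3) (hF 4 2)

theorem octagon_eq {w g₁ g₂ v m₁ m₂ κ oG oM o D p q : ℕ}
    (h : Cert4 w g₁ g₂ v m₁ m₂ κ oG oM o D p q) (F : ℕ → ℕ → ℕ) (hF : ∀ i j, F i j < 2) :
    get v m₁ (OF F) + get v m₂ (OF F) + get v m₁ (OF (trp F)) + get v m₂ (OF (trp F)) =
      4 * oM :=
  cmO_spec h.2.1 (hF 0 1) (hF 0 2) (hF 1 0) (hF 1 1) (hF 1 2) (hF 1 3) (hF 2 0) (hF 2 1)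
    (hF 2 2) (hF 2 3) (hF 3 1) (hF 3 2)

theorem NF_le (F : ℕ → ℕ → ℕ) (hF : ∀ i j, F i j < 2) : NF F ^ 2 ≤ 256 := by
  have h : NF F ≤ 16 := by
    unfold NF nb
    have h1 : ∀ i j, F i j ≤ 1 := fun i j => by have := hF i j; omega
    have l4 : ∀ a b c d : ℕ, a ≤ 1 → b ≤ 1 → c ≤ 1 → d ≤ 1 → a + b + c + d ≤ 4 := by
      intros; omega
    calc _ ≤ 1 * (1 * 4 + 1 * 4 + 1 * 4 + 1 * 4) := by
          gcongr <;> first | exact h1 _ _ | exact l4 _ _ _ _ (h1 _ _) (h1 _ _) (h1 _ _) (h1 _ _)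
      _ = 16 := by norm_num
  calc NF F ^ 2 ≤ 16 ^ 2 := Nat.pow_le_pow_left h 2
    _ = 256 := by norm_num

section

variable {G : Type} [AddCommGroup G]

/-- indicator of a colour -/
def ind (c : G → Bool) (b : Bool) (x : G) : ℕ := if c x = b then 1 else 0

omit [AddCommGroup G] in
theorem ind_lt (c : G → Bool) (b : Bool) (x : G) : ind c b x < 2 := by
  unfold ind
  split_ifs <;> omega

omit [AddCommGroup G] in
theorem ind_true (c : G → Bool) (x : G) : ind c true x = 1 - ind c false x := by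
  unfold ind
  cases h : c x <;> simp

/-- the cells seen from `x` -/
def cl (c : G → Bool) (b : Bool) (u v x : G) : ℕ → ℕ → ℕ :=
  fun i j => ind c b (x + (i • v + j • u))

theorem cl_shf (c : G → Bool) (b : Bool) (u v x : G) (r s : ℕ) :
    shf (cl c b u v x) r s = cl c b u v (x + (r • v + s • u)) := by
  funext i j
  unfold shf cl
  congr 1
  rw [add_nsmul, add_nsmul]
  abel

theorem cl_trp (c : G → Bool) (b : Bool) (u v x : G) :
    trp (cl c b u v x) = cl c b v u x := by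
  funext i j
  unfold trp cl
  congr 1
  abel

theorem sum_shift {G : Type} [AddCommGroup G] [Fintype G] (d : G) (f : G → ℕ) :
    ∑ x, f (x + d) = ∑ x, f x :=
  Equiv.sum_comp (Equiv.addRight d) f

theorem half {w g₁ g₂ v' m₁ m₂ κ oG oM o D p q : ℕ} [Fintype G]
    (h : Cert4 w g₁ g₂ v' m₁ m₂ κ oG oM o D p q) (c : G → Bool) (u v : G) :
    Fintype.card G * o ≤ ∑ x, (get w g₁ (DF (cl c false u v x)) +
      get w g₂ (DF (cl c false u v x)) + get v' m₁ (OF (cl c false u v x)) +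
      get v' m₂ (OF (cl c false u v x))) := by
  have h1 : ∀ x, o ≤ get w g₁ (DF (cl c false u v x)) +
      get w g₂ (DF (cl c false u v (x + (0 • v + 1 • u)))) +
      get v' m₁ (OF (cl c false u v (x + (1 • v + 1 • u)))) +
      get v' m₂ (OF (cl c false u v (x + (0 • v + 1 • u)))) := by
    intro x
    have := window_ineq h (cl c false u v x) (fun i j => ind_lt _ _ _)
    rwa [cl_shf, cl_shf] at this
  have h2 := Finset.sum_le_sum (fun x (_ : x ∈ (Finset.univ : Finset G)) => h1 x)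
  rw [Finset.sum_const, Finset.card_univ, smul_eq_mul] at h2
  refine h2.trans (le_of_eq ?_)
  simp only [Finset.sum_add_distrib]
  rw [sum_shift (0 • v + 1 • u) (fun x => get w g₂ (DF (cl c false u v x))),
    sum_shift (1 • v + 1 • u) (fun x => get v' m₁ (OF (cl c false u v x))),
    sum_shift (0 • v + 1 • u) (fun x => get v' m₂ (OF (cl c false u v x)))]

theorem main_ineq {w g₁ g₂ v' m₁ m₂ κ oG oM o D p q : ℕ} [Fintype G]
    (h : Cert4 w g₁ g₂ v' m₁ m₂ κ oG oM o D p q) (c : G → Bool) (u v : G) :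
    κ * ∑ x, ind c false x + D * p * ∑ x, NF (cl c true u v x) ^ 2 ≤
      D * (q * ∑ x, NF (cl c false u v x) ^ 2 + 256 * p * Fintype.card G) := by
  have e1 := half h c u v
  have e2 := half h c v u
  have ho : o = 2 * oG + 2 * oM := h.2.2.1
  -- sum of the identities
  have e3 : ∑ x, (get w g₁ (DF (cl c false u v x)) + get w g₂ (DF (cl c false u v x)) +
      get w g₁ (DF (cl c false v u x)) + get w g₂ (DF (cl c false v u x)) +
      κ * cl c false u v x 2 2) = ∑ x, (4 * oG + D * (q * NF (cl c false u v x) ^ 2 +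
        p * (256 - NF (cl c true u v x) ^ 2))) := by
    refine Finset.sum_congr rfl fun x _ => ?_
    have := diamond_eq h (cl c false u v x) (fun i j => ind_lt _ _ _)
    rw [cl_trp] at this
    have h3 : (fun i j => 1 - cl c false u v x i j) = cl c true u v x := by
      funext i j
      unfold cl
      rw [ind_true]
    rw [h3] at this
    exact this
  have e4 : ∑ x, (get v' m₁ (OF (cl c false u v x)) + get v' m₂ (OF (cl c false u v x)) +
      get v' m₁ (OF (cl c false v u x)) + get v' m₂ (OF (cl c false v u x))) =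
      ∑ _x : G, 4 * oM := by
    refine Finset.sum_congr rfl fun x _ => ?_
    have := octagon_eq h (cl c false u v x) (fun i j => ind_lt _ _ _)
    rwa [cl_trp] at this
  have e5 : ∑ x, cl c false u v x 2 2 = ∑ x, ind c false x :=
    sum_shift (2 • v + 2 • u) (fun x => ind c false x)
  have e6 : ∑ x, (256 - NF (cl c true u v x) ^ 2) + ∑ x, NF (cl c true u v x) ^ 2 =
      256 * Fintype.card G := by
    rw [← Finset.sum_add_distrib]
    have : ∀ x, 256 - NF (cl c true u v x) ^ 2 + NF (cl c true u v x) ^ 2 = 256 := fun x =>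
      Nat.sub_add_cancel (NF_le _ (fun i j => ind_lt _ _ _))
    simp only [this]
    rw [Finset.sum_const, Finset.card_univ, smul_eq_mul, mul_comm]
  simp only [Finset.sum_add_distrib, ← Finset.mul_sum] at e1 e2 e3 e4
  rw [e5] at e3
  rw [Finset.sum_const, Finset.card_univ, smul_eq_mul] at e3 e4
  set card := Fintype.card G
  set A1 := ∑ x, get w g₁ (DF (cl c false u v x))
  set A2 := ∑ x, get w g₂ (DF (cl c false u v x))
  set A3 := ∑ x, get w g₁ (DF (cl c false v u x))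
  set A4 := ∑ x, get w g₂ (DF (cl c false v u x))
  set B1 := ∑ x, get v' m₁ (OF (cl c false u v x))
  set B2 := ∑ x, get v' m₂ (OF (cl c false u v x))
  set B3 := ∑ x, get v' m₁ (OF (cl c false v u x))
  set B4 := ∑ x, get v' m₂ (OF (cl c false v u x))
  set X := ∑ x, NF (cl c false u v x) ^ 2
  set Y := ∑ x, (256 - NF (cl c true u v x) ^ 2)
  set Z := ∑ x, NF (cl c true u v x) ^ 2
  have h7 : κ * ∑ x, ind c false x ≤ D * (q * X + p * Y) := by
    have k1 : card * o + card * o = card * (4 * oG) + card * (4 * oM) := by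
      rw [ho]; ring
    linarith
  calc κ * ∑ x, ind c false x + D * p * Z ≤ D * (q * X + p * Y) + D * p * Z :=
        Nat.add_le_add_right h7 _
    _ = D * (q * X + p * (Y + Z)) := by ring
    _ = D * (q * X + 256 * p * card) := by rw [e6]; ring

end

theorem walks_succ {G : Type} [AddCommGroup G] {k : ℕ} (s : Fin k → G) (c : G → Bool) (b : Bool)
    (t : ℕ) (x : G) : walks s c b (t + 1) x =
      ind c b x * ∑ i : Fin k, (walks s c b t (x + s i) + walks s c b t (x - s i)) := by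
  unfold ind
  simp only [walks]
  split_ifs <;> simp

theorem walks_two {n : ℕ} (c : Tor 2 n → Bool) (b : Bool) (x : Tor 2 n) :
    walks e c b 2 (x + (2 • e 1 + 2 • e 0)) = NF (cl c b (e 0) (e 1) x) := by
  have h0 : ∀ y : Tor 2 n, walks e c b 0 y = ind c b y := fun y => rfl
  rw [walks_succ, Fin.sum_univ_two]
  simp only [walks_succ e c b 0, Fin.sum_univ_two, h0]
  set u : Tor 2 n := e 0
  set v : Tor 2 n := e 1
  unfold NF nb cl
  have p22 : x + (2 • v + 2 • u) + u - u = x + (2 • v + 2 • u) := by abel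
  have p22' : x + (2 • v + 2 • u) + v - v = x + (2 • v + 2 • u) := by abel
  have p22a : x + (2 • v + 2 • u) - u + u = x + (2 • v + 2 • u) := by abel
  have p22b : x + (2 • v + 2 • u) - v + v = x + (2 • v + 2 • u) := by abel
  have p23 : x + (2 • v + 2 • u) + u = x + (2 • v + 3 • u) := by abel
  have p21 : x + (2 • v + 2 • u) - u = x + (2 • v + 1 • u) := by abel
  have p32 : x + (2 • v + 2 • u) + v = x + (3 • v + 2 • u) := by abel
  have p12 : x + (2 • v + 2 • u) - v = x + (1 • v + 2 • u) := by abel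
  have p24 : x + (2 • v + 3 • u) + u = x + (2 • v + 4 • u) := by abel
  have p23u : x + (2 • v + 3 • u) - u = x + (2 • v + 2 • u) := by abel
  have p33 : x + (2 • v + 3 • u) + v = x + (3 • v + 3 • u) := by abel
  have p13 : x + (2 • v + 3 • u) - v = x + (1 • v + 3 • u) := by abel
  have q22 : x + (2 • v + 1 • u) + u = x + (2 • v + 2 • u) := by abel
  have q20 : x + (2 • v + 1 • u) - u = x + (2 • v + 0 • u) := by
    rw [zero_nsmul]; abel
  have q31 : x + (2 • v + 1 • u) + v = x + (3 • v + 1 • u) := by abel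
  have q11 : x + (2 • v + 1 • u) - v = x + (1 • v + 1 • u) := by abel
  have r33 : x + (3 • v + 2 • u) + u = x + (3 • v + 3 • u) := by abel
  have r31 : x + (3 • v + 2 • u) - u = x + (3 • v + 1 • u) := by abel
  have r42 : x + (3 • v + 2 • u) + v = x + (4 • v + 2 • u) := by abel
  have r22 : x + (3 • v + 2 • u) - v = x + (2 • v + 2 • u) := by abel
  have s13 : x + (1 • v + 2 • u) + u = x + (1 • v + 3 • u) := by abel
  have s11 : x + (1 • v + 2 • u) - u = x + (1 • v + 1 • u) := by abel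
  have s22 : x + (1 • v + 2 • u) + v = x + (2 • v + 2 • u) := by abel
  have s02 : x + (1 • v + 2 • u) - v = x + (0 • v + 2 • u) := by
    rw [zero_nsmul]; abel
  rw [p23, p21, p32, p12, p24, p23u, p33, p13, q22, q20, q31, q11, r33, r31, r42, r22, s13, s11,
    s22, s02]
  ring

theorem wn4 (hCNV : T_CNV) : T_WN4 := by
  intro w g₁ g₂ v m₁ m₂ κ oG oM o D p q hC n _ c
  have h := main_ineq hC c (e 0) (e 1)
  have hsz : size c false = ∑ x, ind c false x := by
    unfold size ind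
    rw [Finset.card_filter]
  have hcard : Fintype.card (Tor 2 n) = n ^ 2 := by
    simp [Tor, ZMod.card]
  have ht : ∀ b, ∑ x, NF (cl c b (e 0) (e 1) x) ^ 2 = total c b 4 := by
    intro b
    unfold total
    rw [hCNV (Tor 2 n) 2 e c b 2 2]
    rw [← sum_shift (2 • e 1 + 2 • e 0) (fun x => walks e c b 2 x * walks e c b 2 x)]
    refine Finset.sum_congr rfl fun x _ => ?_
    rw [walks_two, sq]
  rw [ht, ht, hcard] at h
  rw [hsz]
  exact h

end Pool.Agent.H67.TE
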